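import Mathlib
import Pool.Agent.Helper29_CF.Stmt

namespace Pool.Agent.Helper29_CF.H12

open Finset

set_option linter.unusedSectionVars false

section
variable {V B : Type} [DecidableEq V] [DecidableEq B]

theorem closed_filter {s : B → Finset V} {F : Finset B} {Q : Finset V} (h : Closed s F Q)
    {y : V} (hy : y ∈ Q) {b : B} (hb : b ∈ F) (hyb : y ∈ s b) : s b ⊆ Q := by
  rcases h b hb with h1 | h1
  · exact h1
  · exact absurd hy (Finset.disjoint_left.mp h1 hyb)

theorem cdeg_inside {s : B → Finset V} {F : Finset B} {Q : Finset V} (h : Closed s F Q)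
    (c : B → Bool) (κ : Bool) {y : V} (hy : y ∈ Q) :
    cdeg s (inside s F Q) c κ y = cdeg s F c κ y := by
  unfold cdeg inside
  congr 1
  ext b
  simp only [mem_filter]
  constructor
  · rintro ⟨⟨h1, -⟩, h2, h3⟩
    exact ⟨h1, h2, h3⟩
  · rintro ⟨h1, h2, h3⟩
    exact ⟨⟨h1, closed_filter h hy h1 h2⟩, h2, h3⟩

theorem deg_inside {s : B → Finset V} {F : Finset B} {Q : Finset V} (h : Closed s F Q)
    {y : V} (hy : y ∈ Q) :
    deg s (inside s F Q) y = deg s F y := by
  unfold deg inside
  congr 1
  ext b
  simp only [mem_filter]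
  constructor
  · rintro ⟨⟨h1, -⟩, h2⟩
    exact ⟨h1, h2⟩
  · rintro ⟨h1, h2⟩
    exact ⟨⟨h1, closed_filter h hy h1 h2⟩, h2⟩

theorem cdeg_insert {s : B → Finset V} {L : Finset B} {g : B} (hg : g ∉ L)
    (c : B → Bool) (κ : Bool) (y : V) :
    cdeg s (insert g L) c κ y = cdeg s L c κ y + if (y ∈ s g ∧ c g = κ) then 1 else 0 := by
  unfold cdeg
  rw [Finset.filter_insert]
  split_ifs with h
  · rw [Finset.card_insert_of_notMem (by simp [hg])]
  · rfl

theorem deg_insert {s : B → Finset V} {L : Finset B} {g : B} (hg : g ∉ L) (y : V) :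
    deg s (insert g L) y = deg s L y + if y ∈ s g then 1 else 0 := by
  unfold deg
  rw [Finset.filter_insert]
  split_ifs with h
  · rw [Finset.card_insert_of_notMem (by simp [hg])]
  · rfl

theorem cdeg_add (s : B → Finset V) (L : Finset B) (c : B → Bool) (y : V) :
    cdeg s L c true y + cdeg s L c false y = deg s L y := by
  unfold cdeg deg
  rw [← Finset.card_union_of_disjoint]
  · congr 1
    ext b
    simp only [mem_union, mem_filter]
    constructor
    · rintro (⟨h1, h2, -⟩ | ⟨h1, h2, -⟩) <;> exact ⟨h1, h2⟩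
    · rintro ⟨h1, h2⟩
      rcases hc : c b with _ | _
      · exact Or.inr ⟨h1, h2, rfl⟩
      · exact Or.inl ⟨h1, h2, rfl⟩
  · rw [Finset.disjoint_left]
    intro b hb hb'
    simp only [mem_filter] at hb hb'
    rw [hb.2.2] at hb'
    exact Bool.noConfusion hb'.2.2

theorem cdeg_add' (s : B → Finset V) (L : Finset B) (c : B → Bool) (κ : Bool) (y : V) :
    cdeg s L c κ y + cdeg s L c (!κ) y = deg s L y := by
  rcases κ with _ | _
  · have := cdeg_add s L c y
    simp only [Bool.not_false]
    omega
  · exact cdeg_add s L c y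

theorem cdeg_congr {s : B → Finset V} {L : Finset B} {c c' : B → Bool}
    (h : ∀ b ∈ L, c b = c' b) (κ : Bool) (y : V) :
    cdeg s L c κ y = cdeg s L c' κ y := by
  unfold cdeg
  congr 1
  apply Finset.filter_congr
  intro b hb
  rw [h b hb]

theorem deg_pos_of_mem {s : B → Finset V} {L : Finset B} {b : B} (hb : b ∈ L) {y : V}
    (hy : y ∈ s b) : 1 ≤ deg s L y := by
  unfold deg
  exact Finset.card_pos.mpr ⟨b, by simp [hb, hy]⟩

theorem cdeg_pos_of_mem {s : B → Finset V} {L : Finset B} {c : B → Bool} {b : B} (hb : b ∈ L)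
    {y : V} (hy : y ∈ s b) : 1 ≤ cdeg s L c (c b) y := by
  unfold cdeg
  exact Finset.card_pos.mpr ⟨b, by simp [hb, hy]⟩

end

/-- Sat from a count -/
theorem sat_of {V B : Type} [DecidableEq V] [DecidableEq B] {s : B → Finset V} {C : Finset B}
    {c : B → Bool} {x : V} (κ : Bool) (h : cdeg s C c κ x = 1) : Sat s C c x := ⟨κ, h⟩

theorem comph (hTJ : TJStmt) : CompHStmt := by
  intro V B _ _ _ _ s F Q f g hF hEO hf hfQ hgF hg κ
  obtain ⟨⟨hne, hcl, hmin⟩, hdeg, hnod, hodd⟩ := hEO
  have hEO : EO s F Q := ⟨⟨hne, hcl, hmin⟩, hdeg, hnod, hodd⟩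
  -- the two nodes
  obtain ⟨a, b, hab, habn⟩ := Finset.card_eq_two.mp (hnod f hf hfQ)
  have ha : a ∈ nodes s F (s f) := by rw [habn]; simp
  have hb : b ∈ nodes s F (s f) := by rw [habn]; simp
  have ha1 : a ∈ s f ∧ 2 ≤ deg s F a := by simpa [nodes] using ha
  have hb1 : b ∈ s f ∧ 2 ≤ deg s F b := by simpa [nodes] using hb
  have hbQ : b ∈ nodes s F Q := by
    simp only [nodes, mem_filter]
    exact ⟨hfQ hb1.1, hb1.2⟩
  -- facts on g
  have hga : a ∈ s g := by
    rcases hg with h | ⟨p, -, h⟩
    · rw [h]; exact ha1.1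
    · rw [h]; exact mem_insert_of_mem ha
  have hgb : b ∈ s g := by
    rcases hg with h | ⟨p, -, h⟩
    · rw [h]; exact hb1.1
    · rw [h]; exact mem_insert_of_mem hb
  have hgQ : ∀ y ∈ Q, y ∈ s g → y ∈ s f := by
    intro y hy hyg
    rcases hg with h | ⟨p, hp, h⟩
    · rwa [h] at hyg
    · rw [h, mem_insert] at hyg
      rcases hyg with rfl | hyg
      · exact absurd hy hp
      · exact (mem_filter.mp hyg).1
  have hgpriv : ∀ y ∈ Q, y ∈ s g → 2 ≤ deg s F y → y = a ∨ y = b := by
    intro y hy hyg hd
    have : y ∈ nodes s F (s f) := by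
      simp only [nodes, mem_filter]
      exact ⟨hgQ y hy hyg, hd⟩
    rw [habn] at this
    simpa using this
  -- the parities
  obtain ⟨c, hcf, hc⟩ := hTJ s F Q (fun b hb => (hF b hb).1) hEO
    (fun x => if x = b then 0 else 1) (by
      rw [← Finset.add_sum_erase _ _ hbQ]
      simp only [if_true, zero_add]
      rw [Finset.sum_congr rfl (g := fun _ => (1 : ZMod 2))]
      · rw [Finset.sum_const, Finset.card_erase_of_mem hbQ]
        obtain ⟨k, hk⟩ := hodd
        rw [hk]
        simp only [Nat.add_sub_cancel, nsmul_eq_mul, mul_one]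
        rw [Nat.cast_mul]
        have : ((2 : ℕ) : ZMod 2) = 0 := by decide
        rw [this, zero_mul]
      · intro x hx
        rw [if_neg (Finset.ne_of_mem_erase hx)]) f hf hfQ (!κ)
  -- the family
  have hgL : g ∉ inside s F Q := fun h => hgF (mem_filter.mp h).1
  refine ⟨inside s F Q, filter_subset _ _, fun b hb => (mem_filter.mp hb).2,
    Function.update c g κ, by simp, ?_⟩
  have hcc : ∀ (k : Bool) (y : V), y ∈ Q →
      cdeg s (inside s F Q) (Function.update c g κ) k y = cdeg s F c k y := by
    intro k y hy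
    rw [← cdeg_inside hcl c k hy]
    apply cdeg_congr
    intro b hb
    rw [Function.update_of_ne]
    rintro rfl
    exact hgL hb
  intro y hy
  have hadd := cdeg_add s F c y
  have hins : ∀ k, cdeg s (insert g (inside s F Q)) (Function.update c g κ) k y =
      cdeg s F c k y + if (y ∈ s g ∧ κ = k) then 1 else 0 := by
    intro k
    rw [cdeg_insert hgL, hcc k y hy, Function.update_self]
  have hdins : deg s (insert g (inside s F Q)) y = deg s F y + if y ∈ s g then 1 else 0 := by
    rw [deg_insert hgL, deg_inside hcl hy]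
  rcases hdeg y hy with h1 | h24
  · -- private point
    left
    by_cases hyg : y ∈ s g
    · have hyf := hgQ y hy hyg
      have hfp := cdeg_pos_of_mem (c := c) hf hyf
      rw [hcf] at hfp
      have h2 := cdeg_add' s F c κ y
      refine ⟨κ, ?_⟩
      rw [hins κ, if_pos ⟨hyg, rfl⟩]
      omega
    · by_cases h0 : cdeg s F c true y = 1
      · refine ⟨true, ?_⟩
        rw [hins, if_neg (fun h => hyg h.1), h0]
      · refine ⟨false, ?_⟩
        rw [hins, if_neg (fun h => hyg h.1)]
        omega
  · have hyn : y ∈ nodes s F Q := by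
      simp only [nodes, mem_filter]
      refine ⟨hy, ?_⟩
      omega
    have hcy := hc y hyn
    by_cases hyg : y ∈ s g
    · rcases h24 with h2 | h4
      · left
        rcases hgpriv y hy hyg (by omega) with rfl | rfl
        · -- y = a
          rw [if_neg hab] at hcy
          have hoddc : Odd (cdeg s F c true y) := by
            rw [← ZMod.natCast_eq_one_iff_odd]; exact hcy
          have h3 : cdeg s F c true y = 1 := by
            obtain ⟨k, hk⟩ := hoddc
            omega
          have h4 : cdeg s F c false y = 1 := by omega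
          refine ⟨!κ, ?_⟩
          rw [hins, if_neg (by rintro ⟨-, h⟩; exact absurd h (by cases κ <;> simp))]
          cases κ
          · exact h3
          · exact h4
        · -- y = b
          simp only [if_true] at hcy
          have heven : Even (cdeg s F c true y) := by
            rw [← ZMod.natCast_eq_zero_iff_even]; exact hcy
          have hfp := cdeg_pos_of_mem (c := c) hf hb1.1
          rw [hcf] at hfp
          have h0 : cdeg s F c κ y = 0 := by
            have h5 := cdeg_add' s F c κ y
            obtain ⟨k, hk⟩ := heven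
            cases κ
            · simp only [Bool.not_false] at *
              omega
            · simp only [Bool.not_true] at *
              omega
          refine ⟨κ, ?_⟩
          rw [hins, if_pos ⟨hyg, rfl⟩, h0]
      · right
        rw [hdins, if_pos hyg, h4]
    · left
      have hyb : y ≠ b := by
        rintro rfl
        exact hyg hgb
      rw [if_neg hyb] at hcy
      have hoddc : Odd (cdeg s F c true y) := by
        rw [← ZMod.natCast_eq_one_iff_odd]; exact hcy
      obtain ⟨k, hk⟩ := hoddc
      by_cases h0 : cdeg s F c true y = 1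
      · refine ⟨true, ?_⟩
        rw [hins, if_neg (fun h => hyg h.1), h0]
      · refine ⟨false, ?_⟩
        rw [hins, if_neg (fun h => hyg h.1)]
        omega

end Pool.Agent.Helper29_CF.H12
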