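import Mathlib
import Pool.Agent.Helper29_CF.Stmt
import Pool.Agent.Helper12_CF.Comph

namespace Pool.Agent.Helper29_CF.H12

open Finset

theorem deg_erase {V B : Type} [DecidableEq V] [DecidableEq B] {s : B → Finset V} {F : Finset B}
    {f : B} (hf : f ∈ F) (y : V) :
    deg s (F.erase f) y + (if y ∈ s f then 1 else 0) = deg s F y := by
  have h := deg_insert (s := s) (L := F.erase f) (g := f) (notMem_erase f F) y
  rw [insert_erase hf] at h
  exact h.symm

theorem sat_flip {V B : Type} [DecidableEq V] [DecidableEq B] {s : B → Finset V} {F : Finset B}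
    {c : B → Bool} {y : V} (k : Bool) (h : Sat s F c y) :
    Sat s F (fun b => xor k (c b)) y := by
  obtain ⟨κ, hκ⟩ := h
  refine ⟨xor k κ, ?_⟩
  rw [← hκ]
  unfold cdeg
  congr 1
  apply Finset.filter_congr
  intro b _
  simp

theorem compw (hCOL : ColStmt) (hBR : BridgeStmt) (hNE : NoEOStmt) : CompWStmt := by
  intro V B _ _ _ _ s F Q g x hF hEO hd2 hgF hxg hxQ hdx hcard κ
  obtain ⟨⟨hne, hcl, hmin⟩, hdeg, hnod, hodd⟩ := hEO
  have hEO : EO s F Q := ⟨⟨hne, hcl, hmin⟩, hdeg, hnod, hodd⟩
  -- the block at x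
  obtain ⟨f, hfx⟩ := Finset.card_eq_one.mp hdx
  have hf' : f ∈ F.filter (fun b => x ∈ s b) := by rw [hfx]; simp
  obtain ⟨hf, hxf⟩ := mem_filter.mp hf'
  have hfQ : s f ⊆ Q := closed_filter hcl hxQ hf hxf
  -- the other point of g
  obtain ⟨y, hy⟩ : ∃ y, (s g ∩ Q) = {x, y} ∧ x ≠ y := by
    obtain ⟨u, v, huv, h⟩ := Finset.card_eq_two.mp hcard
    have hx : x ∈ s g ∩ Q := mem_inter.mpr ⟨hxg, hxQ⟩
    rw [h] at hx
    rcases mem_insert.mp hx with rfl | hx
    · exact ⟨v, h, huv⟩
    · rw [mem_singleton] at hx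
      subst hx
      refine ⟨u, ?_, fun h => huv h.symm⟩
      rw [h, Finset.pair_comm]
  obtain ⟨hgQ, hxy⟩ := hy
  have hyg : y ∈ s g ∩ Q := by rw [hgQ]; simp
  obtain ⟨hyg, hyQ⟩ := mem_inter.mp hyg
  -- the rest
  have hcomp := hBR s F Q f x hF hEO hf hfQ hxf hdx
  have hcl' := hcomp.2.1
  have hnoEO := hNE s F Q f x hF hEO hf hfQ hxf hdx
  have hle : ∀ z, deg s (F.erase f) z ≤ deg s F z := by
    intro z
    have := deg_erase (s := s) hf z
    omega
  have hpos : ∀ z ∈ Q.erase x, 1 ≤ deg s (F.erase f) z := by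
    intro z hz
    obtain ⟨hzx, hzQ⟩ := mem_erase.mp hz
    have h := deg_erase (s := s) hf z
    have h1 : 1 ≤ deg s F z := by
      rcases hdeg z hzQ with h | h | h <;> omega
    by_cases hzf : z ∈ s f
    · rw [if_pos hzf] at h
      -- z is a node
      have h2 : z ∈ nodes s F (s f) := by
        by_contra hzn
        have hsub : nodes s F (s f) ⊆ ((s f).erase x).erase z := by
          intro w hw
          have hw' := mem_filter.mp hw
          refine mem_erase.mpr ⟨?_, mem_erase.mpr ⟨?_, hw'.1⟩⟩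
          · rintro rfl; exact hzn hw
          · rintro rfl
            omega
        have h3 := Finset.card_le_card hsub
        rw [hnod f hf hfQ, Finset.card_erase_of_mem (mem_erase.mpr ⟨hzx, hzf⟩),
          Finset.card_erase_of_mem hxf] at h3
        have := (hF f hf).2
        omega
      have := (mem_filter.mp h2).2
      omega
    · rw [if_neg hzf] at h
      omega
  obtain ⟨c, hc⟩ := hCOL s (F.erase f) (Q.erase x) (fun b hb => (hF b (mem_of_mem_erase hb)).1)
    hcl' (by
      intro b hb hbN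
      rw [← hnod b (mem_of_mem_erase hb) (hbN.trans (erase_subset _ _))]
      apply Finset.card_le_card
      intro z hz
      simp only [nodes, mem_filter] at hz ⊢
      exact ⟨hz.1, hz.2.trans (hle z)⟩) hnoEO
  have hsat : ∀ z ∈ Q.erase x, Sat s (F.erase f) c z := by
    intro z hz
    refine hc z hz (hpos z hz) ?_
    have := hd2 z (mem_of_mem_erase hz)
    have := hle z
    omega
  have hyN : y ∈ Q.erase x := mem_erase.mpr ⟨hxy.symm, hyQ⟩
  -- the flip
  obtain ⟨c1, hc1, hc1y⟩ : ∃ c1 : B → Bool, (∀ z ∈ Q.erase x, Sat s (F.erase f) c1 z) ∧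
      cdeg s (F.erase f) c1 (!κ) y = 1 := by
    obtain ⟨k, hk⟩ := hsat y hyN
    refine ⟨fun b => xor (xor k (!κ)) (c b), fun z hz => sat_flip _ (hsat z hz), ?_⟩
    rw [← hk]
    unfold cdeg
    congr 1
    apply Finset.filter_congr
    intro b _
    have hd : ∀ d : Bool, ((xor (xor k (!κ)) d) = (!κ) ↔ d = k) := by
      cases k <;> cases κ <;> decide
    rw [hd]
  -- the family
  have hgF' : g ∉ F.erase f := fun h => hgF (mem_of_mem_erase h)
  have hgL : g ∉ inside s (F.erase f) (Q.erase x) := fun h => hgF' (mem_filter.mp h).1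
  refine ⟨inside s (F.erase f) (Q.erase x), (filter_subset _ _).trans (erase_subset _ _),
    fun b hb => ((mem_filter.mp hb).2).trans (erase_subset _ _),
    Function.update c1 g κ, by simp, ?_⟩
  have hcc : ∀ (k : Bool) (z : V), z ∈ Q.erase x →
      cdeg s (inside s (F.erase f) (Q.erase x)) (Function.update c1 g κ) k z =
        cdeg s (F.erase f) c1 k z := by
    intro k z hz
    rw [← cdeg_inside hcl' c1 k hz]
    apply cdeg_congr
    intro b hb
    rw [Function.update_of_ne]
    rintro rfl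
    exact hgL hb
  intro z hz
  left
  by_cases hzx : z = x
  · subst hzx
    refine ⟨κ, ?_⟩
    rw [cdeg_insert hgL, if_pos ⟨hxg, by simp⟩]
    have : cdeg s (inside s (F.erase f) (Q.erase z)) (Function.update c1 g κ) κ z = 0 := by
      unfold cdeg
      rw [Finset.card_eq_zero, Finset.filter_eq_empty_iff]
      intro b hb h
      have := (mem_filter.mp hb).2 h.1
      simp at this
    rw [this]
  · have hzN : z ∈ Q.erase x := mem_erase.mpr ⟨hzx, hz⟩
    by_cases hzg : z ∈ s g
    · have hzy : z = y := by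
        have : z ∈ s g ∩ Q := mem_inter.mpr ⟨hzg, hz⟩
        rw [hgQ, mem_insert, mem_singleton] at this
        exact this.resolve_left hzx
      subst hzy
      refine ⟨!κ, ?_⟩
      rw [cdeg_insert hgL, hcc _ _ hzN, hc1y, if_neg]
      rintro ⟨-, h⟩
      rw [Function.update_self] at h
      cases κ <;> simp at h
    · obtain ⟨k, hk⟩ := hc1 z hzN
      refine ⟨k, ?_⟩
      rw [cdeg_insert hgL, hcc _ _ hzN, hk, if_neg (fun h => hzg h.1)]

end Pool.Agent.Helper29_CF.H12
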