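import Mathlib
import Pool.Agent.Helper29_CF.Stmt
import Pool.Agent.Helper12_CF.Comph

namespace Pool.Agent.Helper29_CF.H12

open Finset

theorem deg_congr_of {V B : Type} [DecidableEq V] [DecidableEq B] {s : B → Finset V}
    {F F' : Finset B} {W : Finset V} (hF : Closed s F W) (hF' : Closed s F' W)
    (h : ∀ b, s b ⊆ W → (b ∈ F' ↔ b ∈ F)) {y : V} (hy : y ∈ W) : deg s F' y = deg s F y := by
  unfold deg
  congr 1
  ext b
  simp only [mem_filter]
  constructor
  · rintro ⟨h1, h2⟩
    exact ⟨(h b (closed_filter hF' hy h1 h2)).mp h1, h2⟩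
  · rintro ⟨h1, h2⟩
    exact ⟨(h b (closed_filter hF hy h1 h2)).mpr h1, h2⟩

theorem cert_persist {V B : Type} [Fintype V] [DecidableEq V] [Fintype B] [DecidableEq B]
    {s : B → Finset V} {K : Finset B} {cap : ℕ} {F F' : Finset B} {W : Finset V}
    (hF : EO s F W) (hF' : EO s F' W) (h : ∀ b, s b ⊆ W → (b ∈ F' ↔ b ∈ F))
    (h3 : cap = 3 → ∀ x, deg s F' x = 3 ↔ deg s F x = 3) (hC : Cert s K cap F W) :
    Cert s K cap F' W := by
  have hd : ∀ y ∈ W, deg s F' y = deg s F y := fun y hy =>
    deg_congr_of hF.1.2.1 hF'.1.2.1 h hy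
  rcases hC with ⟨f, hf, hfW, g, hgK, hgF, hgf⟩ | ⟨f, hf, hfW, g, hgK, p, hp, hgp, hp3⟩ | ⟨hc, hW⟩
  · refine Or.inl ⟨f, (h f hfW).mpr hf, hfW, g, hgK, ?_, hgf⟩
    rwa [h g (hgf ▸ hfW)]
  · refine Or.inr (Or.inl ⟨f, (h f hfW).mpr hf, hfW, g, hgK, p, hp, ?_, ?_⟩)
    · rw [hgp]
      congr 1
      unfold nodes
      apply Finset.filter_congr
      intro x hx
      rw [hd x (hfW hx)]
    · intro hc h'
      exact hp3 hc ((h3 hc p).mp h')
  · refine Or.inr (Or.inr ⟨hc, ?_⟩)
    unfold WCert at hW ⊢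
    convert hW using 2
    have e1 : W.filter (fun x => deg s F' x = 1) = W.filter (fun x => deg s F x = 1) := by
      apply Finset.filter_congr
      intro x hx
      rw [hd x hx]
    rw [e1]
    apply Finset.filter_congr
    intro z _
    simp only [h3 hc]

theorem tok (hPATH : PathStmt) (hGE : GoodExStmt) : TokStmt := by
  classical
  intro V B _ _ _ _ s K cap hS hopt hex
  have hg := (hGE s K cap hS).1 hex
  -- number of tokens without certificate
  set bad : Finset B → Finset (Finset V) := fun F =>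
    univ.filter (fun W => EO s F W ∧ ¬ Cert s K cap F W) with hbad
  have hmem : ∀ F W, W ∈ bad F ↔ (EO s F W ∧ ¬ Cert s K cap F W) := by
    intro F W
    simp [hbad]
  -- induction on the number
  have key : ∀ n : ℕ, ∀ F, Good s K cap F → (bad F).card = n →
      ∃ F, Good s K cap F ∧ ∀ Q, EO s F Q → Cert s K cap F Q := by
    intro n
    induction n using Nat.strong_induction_on with
    | _ n ih =>
      intro F hF hn
      by_cases hall : ∀ Q, EO s F Q → Cert s K cap F Q
      · exact ⟨F, hF, hall⟩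
      · push Not at hall
        obtain ⟨Q, hQ, hQC⟩ := hall
        obtain ⟨F', Q', hF', hQ', hC', hother, hsame, h3⟩ := hPATH s K cap hS hopt F Q hF hQ
        refine ih (bad F').card ?_ F' hF' rfl
        rw [← hn]
        apply Finset.card_lt_card
        rw [Finset.ssubset_iff_of_subset]
        · refine ⟨Q, (hmem F Q).mpr ⟨hQ, hQC⟩, ?_⟩
          intro hQ2
          rw [hmem] at hQ2
          by_cases hQQ : Q = Q'
          · subst hQQ
            exact hQ2.2 hC'
          · exact ((hother Q).mp ⟨hQ2.1, hQQ⟩).2 rfl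
        · intro W hW
          rw [hmem] at hW ⊢
          have hne : W ≠ Q' := by
            rintro rfl
            exact hW.2 hC'
          obtain ⟨h1, h2⟩ := (hother W).mp ⟨hW.1, hne⟩
          refine ⟨h1, fun hC => hW.2 ?_⟩
          exact cert_persist h1 hW.1 (hsame W h1 h2) h3 hC
  obtain ⟨F, hF⟩ := hg
  exact key _ F hF rfl

end Pool.Agent.Helper29_CF.H12
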